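import Pool.Agent.BKT.RelGenLocal
import Pool.Agent.BKT.RelGenDim
import Pool.Agent.Helper79.BKH.Defs

/-!
The continuation of a power of the L-function of a twist by an Artin representation, from that for
induced systems and for other twists, and a relation between the characters.
-/

open scoped Pointwise NumberField
open Polynomial IsDedekindDomain

namespace Pool.BK

section Main

variable (K : Type) [Field K] [NumberField K] (Ω : Type) [Field Ω] [Algebra K Ω] [IsAlgClosed Ω]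
  [Algebra.IsAlgebraic K Ω]

open RelBasePow

theorem val_twist_gen (V : LSystem (Ω ≃ₐ[K] Ω))
    (B : ∀ (p : ℕ) [Fact p.Prime], PeriodData (Ω ≃ₐ[K] Ω) (𝓞 Ω) p) {r : ℕ}
    (θ : (Ω ≃ₐ[K] Ω) →* Matrix (Fin r) (Fin r) ℚ) (hθ : IsOpen (θ.ker : Set (Ω ≃ₐ[K] Ω)))
    {J : Type} [Fintype J] (r' : J → ℕ)
    (θ' : ∀ j, (Ω ≃ₐ[K] Ω) →* Matrix (Fin (r' j)) (Fin (r' j)) ℚ)
    (hθ' : ∀ j, IsOpen ((θ' j).ker : Set (Ω ≃ₐ[K] Ω)))
    {ι : Type} [Fintype ι] (E : ι → IntermediateField K Ω) [hE : ∀ i, NumberField (E i)]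
    (a : ι → ℤ) (c : J → ℤ) (m : ℕ) (hm : 0 < m)
    (ha : ∀ g : Ω ≃ₐ[K] Ω, ∑ i, (a i : ℚ) * (fixCount (E i).fixingSubgroup g : ℚ) +
      ∑ j, (c j : ℚ) * (θ' j g).trace = m * (θ g).trace)
    (h : ∀ i, ∃ n : ℕ, 0 < n ∧ BKInd K (E i) Ω V B n)
    (h' : ∀ j, ∃ (n : ℕ) (k : ℤ), 0 < n ∧ BKval K Ω (V.twist (θ' j) (hθ' j)) n k) :
    ∃ (n : ℕ) (k : ℤ), 0 < n ∧ BKval K Ω (V.twist θ hθ) n k := by
  classical
  choose n₁ hn₁ P₁ hP₁ σ₁ U₁ Λ₁ hUo₁ hUσ₁ hUr₁ hmer₁ hprod₁ hord₁ using h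
  choose n₂ k₂ hn₂ P₂ hP₂ σ₂ U₂ Λ₂ hUo₂ hUσ₂ hUr₂ hmer₂ hprod₂ hord₂ using h'
  have hord₁' : ∀ i, ∃ k : ℤ, meromorphicOrderAt (Λ₁ i) 0 = (k : WithTop ℤ) := by
    intro i
    have : Fact (Nat.Prime 2) := ⟨Nat.prime_two⟩
    exact ⟨_, (hord₁ i 2).2⟩
  choose k₁ hk₁ using hord₁'
  let n : ι ⊕ J → ℕ := Sum.elim n₁ n₂
  let P : ι ⊕ J → HeightOneSpectrum (𝓞 K) → ℚ[X] := Sum.elim P₁ P₂
  let σ : ι ⊕ J → ℝ := Sum.elim σ₁ σ₂
  let U : ι ⊕ J → Set ℂ := Sum.elim U₁ U₂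
  let Λ : ι ⊕ J → ℂ → ℂ := Sum.elim Λ₁ Λ₂
  let ac : ι ⊕ J → ℤ := Sum.elim a c
  have hn : ∀ x, 0 < n x := by rintro (i | j); exacts [hn₁ i, hn₂ j]
  have hUo : ∀ x, IsOpen (U x) := by rintro (i | j); exacts [hUo₁ i, hUo₂ j]
  have hUσ : ∀ x, {s : ℂ | σ x < s.re} ⊆ U x := by rintro (i | j); exacts [hUσ₁ i, hUσ₂ j]
  have hUr : ∀ x, ∀ t : ℝ, 0 ≤ t → (t : ℂ) ∈ U x := by rintro (i | j); exacts [hUr₁ i, hUr₂ j]
  have hmer : ∀ x, MeromorphicOn (Λ x) (U x) := by rintro (i | j); exacts [hmer₁ i, hmer₂ j]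
  have hprod : ∀ x, ∀ s : ℂ, σ x < s.re →
      ∃ z : ℂ, z ≠ 0 ∧ HasProd (eulerFactor K (P x) s) z ∧ Λ x s = z ^ n x := by
    rintro (i | j); exacts [hprod₁ i, hprod₂ j]
  -- the local relation over `ℚ`
  let A : HeightOneSpectrum (𝓞 K) → ℚ[X] := fun v => ∏ x, (P x v) ^ (ac x).toNat
  let C : HeightOneSpectrum (𝓞 K) → ℚ[X] := fun v => ∏ x, (P x v) ^ (-(ac x)).toNat
  have key : ∀ (v : HeightOneSpectrum (𝓞 K)) (l : ℕ) [Fact l.Prime] (hl : (l : 𝓞 K) ∉ v.asIdeal)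
      (Q : Ideal (𝓞 Ω)) (hQ : Q.IsPrime) (hQv : Q.under (𝓞 K) = v.asIdeal) (φ : Ω ≃ₐ[K] Ω)
      (hφ : ∀ x : 𝓞 Ω, φ • x - x ^ v.asIdeal.absNorm ∈ Q),
      (eulerPoly (tensorRep (V.rep l) θ) Q φ) ^ m * (C v).map (algebraMap ℚ ℚ_[l]) =
        (A v).map (algebraMap ℚ ℚ_[l]) ∧ ∀ x, (P x v).coeff 0 = 1 := by
    intro v l _ hl Q hQ hQv φ hφ
    choose R hR using fun i => exists_localFamily K Ω (V.rep l) (E i) v
    obtain ⟨h1, h2⟩ := gen_local (V.rep l) θ hθ r' θ' hθ' v Q hQ hQv φ hφ E a c m ha R hR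
      (fun x => (P x v).map (algebraMap ℚ ℚ_[l]))
      (fun i => (hP₁ i v l hl (R i) (hR i)).symm) (fun j => (hP₂ j v l hl Q hQ hQv φ hφ).symm)
    refine ⟨?_, fun x => ?_⟩
    · simp only [A, C, Polynomial.map_prod, Polynomial.map_pow]
      exact h1
    · have := h2 x
      rw [coeff_map] at this
      exact (algebraMap ℚ ℚ_[l]).injective (by rw [this, map_one])
  have hc0 : ∀ v i, (P i v).coeff 0 = 1 := by
    intro v
    obtain ⟨l, -, hl, hlv⟩ := exists_prime v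
    obtain ⟨Q, hQ, hQv⟩ := exists_over (Ω := Ω) v
    obtain ⟨φ, hφ⟩ := exists_frob v Q hQ hQv
    exact (key v l hlv Q hQ hQv φ hφ).2
  have hCne : ∀ v, C v ≠ 0 := by
    intro v
    refine Finset.prod_ne_zero_iff.2 fun i _ => pow_ne_zero _ fun h0 => ?_
    have := hc0 v i
    rw [h0] at this
    simp at this
  have hdvd : ∀ v, C v ∣ A v := by
    intro v
    obtain ⟨l, -, hl, hlv⟩ := exists_prime v
    obtain ⟨Q, hQ, hQv⟩ := exists_over (Ω := Ω) v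
    obtain ⟨φ, hφ⟩ := exists_frob v Q hQ hQv
    rw [← Polynomial.map_dvd_map' (algebraMap ℚ ℚ_[l])]
    exact ⟨_, by rw [← (key v l hlv Q hQ hQv φ hφ).1, mul_comm]⟩
  choose R0 hR0 using hdvd
  have hpow : ∀ (v : HeightOneSpectrum (𝓞 K)) (l : ℕ) [Fact l.Prime] (hl : (l : 𝓞 K) ∉ v.asIdeal)
      (Q : Ideal (𝓞 Ω)) (hQ : Q.IsPrime) (hQv : Q.under (𝓞 K) = v.asIdeal) (φ : Ω ≃ₐ[K] Ω)
      (hφ : ∀ x : 𝓞 Ω, φ • x - x ^ v.asIdeal.absNorm ∈ Q),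
      (eulerPoly (tensorRep (V.rep l) θ) Q φ) ^ m = (R0 v).map (algebraMap ℚ ℚ_[l]) := by
    intro v l _ hl Q hQ hQv φ hφ
    have h1 := (key v l hl Q hQ hQv φ hφ).1
    rw [hR0 v, Polynomial.map_mul, mul_comm] at h1
    exact mul_left_cancel₀
      ((Polynomial.map_ne_zero_iff (algebraMap ℚ ℚ_[l]).injective).2 (hCne v)) h1
  have hroot : ∀ v : HeightOneSpectrum (𝓞 K), ∃ q : ℚ[X], q.coeff 0 = 1 ∧ q ^ m = R0 v ∧
      q.natDegree ≤ max (V.dim 2 * r) (V.dim 3 * r) := by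
    intro v
    obtain ⟨l, hl23, hl, hlv⟩ := exists_prime v
    obtain ⟨Q, hQ, hQv⟩ := exists_over (Ω := Ω) v
    obtain ⟨φ, hφ⟩ := exists_frob v Q hQ hQv
    obtain ⟨q, hr0, hrm, hr⟩ := exists_root_rat l (eulerPoly (tensorRep (V.rep l) θ) Q φ) (R0 v) m hm
      (coeff_zero_reverse_charpoly _) (hpow v l hlv Q hQ hQv φ hφ)
    refine ⟨q, hr0, hrm, ?_⟩
    have h1 : q.natDegree = (eulerPoly (tensorRep (V.rep l) θ) Q φ).natDegree := by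
      rw [hr, Polynomial.natDegree_map]
    rw [h1]
    refine (natDegree_eulerPoly _ _ _).trans ?_
    rcases hl23 with rfl | rfl
    · exact le_max_left _ _
    · exact le_max_right _ _
  choose P0 hP00 hP0m hP0d using hroot
  have hfam : IsEulerFamily K Ω (V.twist θ hθ) P0 := by
    intro v l _ hl Q hQ hQv φ hφ
    obtain ⟨q, hr0, hrm, hr⟩ := exists_root_rat l (eulerPoly (tensorRep (V.rep l) θ) Q φ) (R0 v) m hm
      (coeff_zero_reverse_charpoly _) (hpow v l hl Q hQ hQv φ hφ)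
    change eulerPoly (tensorRep (V.rep l) θ) Q φ = _
    rw [hr, root_unique q (P0 v) m hm hr0 (hP00 v) (by rw [hrm, hP0m])]
  let σ0 : ℝ := ∑ x, |σ x|
  have hσ0 : ∀ x, σ x ≤ σ0 := fun x => (le_abs_self _).trans
    (Finset.single_le_sum (f := fun x => |σ x|) (fun j _ => abs_nonneg _) (Finset.mem_univ x))
  have hrel : ∀ v, (P0 v) ^ m * ∏ x, (P x v) ^ (-(ac x)).toNat = ∏ x, (P x v) ^ (ac x).toNat := by
    intro v
    rw [hP0m v, mul_comm]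
    exact (hR0 v).symm
  obtain ⟨σ1, hσ1⟩ := RelInd.exists_sigma ac m hm P P0 hP00
    ⟨_, hP0d⟩ hrel σ0 (fun i s hs => by
      obtain ⟨z, hz, hzp, -⟩ := hprod i s (lt_of_le_of_lt (hσ0 i) hs)
      exact ⟨z, hz, hzp⟩)
  let M : ℕ := ∏ x, n x
  let M' : ι ⊕ J → ℕ := fun x => ∏ y ∈ Finset.univ.erase x, n y
  have hM : ∀ x, n x * M' x = M := fun x => Finset.mul_prod_erase _ _ (Finset.mem_univ x)
  have hM0 : 0 < M := Finset.prod_pos fun x _ => hn x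
  have hord : ∀ x, meromorphicOrderAt (Λ x) 0 = ((Sum.elim k₁ k₂ x : ℤ) : WithTop ℤ) := by
    rintro (i | j)
    · exact hk₁ i
    · exact hord₂ j
  refine ⟨m * M, ∑ x, (ac x * M' x) * Sum.elim k₁ k₂ x, Nat.mul_pos hm hM0, P0, hfam, max σ0 σ1, ⋂ x, U x,
    fun s => ∏ x, Λ x s ^ (ac x * M' x), isOpen_iInter_of_finite hUo, ?_, ?_, ?_, ?_, ?_⟩
  · intro s hs
    refine Set.mem_iInter.2 fun i => hUσ i ?_
    exact lt_of_le_of_lt ((hσ0 i).trans (le_max_left _ _)) hs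
  · intro t ht
    exact Set.mem_iInter.2 fun i => hUr i t ht
  · intro s hs
    exact MeromorphicAt.fun_prod fun i _ => (hmer i s (Set.mem_iInter.1 hs i)).fun_zpow _
  · intro s hs
    have hs0 : σ0 < s.re := lt_of_le_of_lt (le_max_left _ _) hs
    have hs1 : σ1 < s.re := lt_of_le_of_lt (le_max_right _ _) hs
    obtain ⟨w, hw, hwp⟩ := hσ1 s hs1
    choose z hz hzp hzΛ using fun x => hprod x s (lt_of_le_of_lt (hσ0 x) hs0)
    refine ⟨w, hw, hwp, ?_⟩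
    rw [pow_mul, RelInd.value_relation ac m P P0 hrel s w hwp z hz hzp, ← Finset.prod_pow]
    refine Finset.prod_congr rfl fun i _ => ?_
    rw [hzΛ i, ← zpow_natCast, ← zpow_natCast, ← zpow_mul, ← zpow_mul, ← hM i]
    congr 1
    push_cast
    ring
  · exact (order_prod_zpow Λ 0
      (fun i => hmer i 0 (by simpa using hUr i 0 le_rfl)) (fun i => ac i * M' i) _ hord).2

end Main

end Pool.BK
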