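import Pool.Agent.Helper79.BKS.Completion
import Pool.Agent.Helper79.BKS.Val
import Pool.Agent.Helper79.BKH.Defect

/-!
The order of vanishing formula for a twist, from inequalities with a small error for other twists
with a proportional character at the bad elements, given the formula over the totally complex,
locally trivial fields.
-/

open scoped Pointwise NumberField
open Polynomial IsDedekindDomain

namespace Pool.BK

namespace Approx

variable {G : Type} [Group G]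

/-- the degrees of two representations -/
def rk (r₀ r : ℕ) : Bool → ℕ
  | true => r₀
  | false => r

/-- a pair of representations -/
def two {r₀ r : ℕ} (θ₀ : G →* Matrix (Fin r₀) (Fin r₀) ℚ) (θ : G →* Matrix (Fin r) (Fin r) ℚ) :
    ∀ b, G →* Matrix (Fin (rk r₀ r b)) (Fin (rk r₀ r b)) ℚ
  | true => θ₀
  | false => θ

theorem two_isOpen [TopologicalSpace G] {r₀ r : ℕ} (θ₀ : G →* Matrix (Fin r₀) (Fin r₀) ℚ)
    (θ : G →* Matrix (Fin r) (Fin r) ℚ) (h₀ : IsOpen (θ₀.ker : Set G))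
    (h : IsOpen (θ.ker : Set G)) : ∀ b, IsOpen ((two θ₀ θ b).ker : Set G)
  | true => h₀
  | false => h

/-- the coefficients -/
def co (c : ℚ) : Bool → ℚ
  | true => c
  | false => -1

/-- a rational number that is small -/
theorem eq_zero_of_small (x : ℚ) (h : ∀ ε : ℚ, 0 < ε → |x| ≤ ε) : x = 0 := by
  by_contra hx
  have h1 : 0 < |x| := abs_pos.2 hx
  have h2 := h (|x| / 2) (half_pos h1)
  linarith

end Approx

section Main

variable (K : Type) [Field K] [NumberField K] (Ω : Type) [Field Ω] [Algebra K Ω] [IsAlgClosed Ω]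
  [Algebra.IsAlgebraic K Ω]

attribute [local instance] Completion.fin Completion.hE Completion.hM₀

open Approx in
theorem approx_local (V : LSystem (Ω ≃ₐ[K] Ω))
    (B : ∀ (p : ℕ) [Fact p.Prime], PeriodData (Ω ≃ₐ[K] Ω) (𝓞 Ω) p)
    (F : IntermediateField K Ω) [NumberField F] [Normal K F]
    (F₁ : IntermediateField K Ω) [NumberField F₁]
    (T : Set (HeightOneSpectrum (𝓞 K))) (hT : T.Finite) (N : ℕ) (hN : 0 < N)
    (X : Set (IntermediateField K Ω))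
    (hX : ∀ n : ℕ, 0 < n → {L | L ∈ X ∧ Module.finrank K L = n}.Finite)
    (h : ∀ (L : IntermediateField K Ω) [NumberField L], NumberField.IsTotallyComplex L →
      LocTriv F T L → L ∉ X → N ∣ Module.finrank K L →
      (∃ (W : Subgroup (Ω ≃ₐ[K] Ω)) (_ : W.Normal), IsOpen (W : Set (Ω ≃ₐ[K] Ω)) ∧
        W ≤ F₁.fixingSubgroup ∧ W ≤ L.fixingSubgroup ∧
        IsCyclic (L.fixingSubgroup.map (QuotientGroup.mk' W))) →
      ∃ m : ℕ, 0 < m ∧ BKInd K L Ω V B m)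
    {r₀ : ℕ} (θ₀ : (Ω ≃ₐ[K] Ω) →* Matrix (Fin r₀) (Fin r₀) ℚ)
    (hθ₀ : IsOpen (θ₀.ker : Set (Ω ≃ₐ[K] Ω)))
    (hap : ∀ (p : ℕ) [Fact p.Prime] (ε : ℚ), 0 < ε → ∀ e : ℤ, e = 1 ∨ e = -1 → ∃ (r : ℕ)
      (θ : (Ω ≃ₐ[K] Ω) →* Matrix (Fin r) (Fin r) ℚ) (hθ : IsOpen (θ.ker : Set (Ω ≃ₐ[K] Ω)))
      (c : ℚ) (m : ℕ) (k : ℤ), 0 < c ∧ 0 < m ∧
        (∀ σ : Ω ≃ₐ[K] Ω, IsConj σ ∨ IsLoc F T σ → (θ σ).trace = c * (θ₀ σ).trace) ∧
        BKval K Ω (V.twist θ hθ) m k ∧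
        (Module.Finite ℚ_[p] (H1f (tensorRep (V.rep p) θ) (B p)) →
          ((e * (k - m * ((Module.finrank ℚ_[p] (H1f (tensorRep (V.rep p) θ) (B p)) : ℤ) -
            (Pool.BK.h0 (tensorRep (V.rep p) θ) : ℤ))) : ℤ) : ℚ) ≤ ε * c * m)) :
    ∃ m : ℕ, 0 < m ∧ BKpow K Ω (V.twist θ₀ hθ₀) B m := by
  classical
  -- the completed relations
  have hcomp : ∀ {r : ℕ} (θ : (Ω ≃ₐ[K] Ω) →* Matrix (Fin r) (Fin r) ℚ)
      (hθ : IsOpen (θ.ker : Set (Ω ≃ₐ[K] Ω))) (c : ℚ),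
      (∀ σ : Ω ≃ₐ[K] Ω, IsConj σ ∨ IsLoc F T σ → (θ σ).trace = c * (θ₀ σ).trace) →
      Nonempty (Completion K Ω V B (rk r₀ r) (two θ₀ θ) (co c)) := by
    intro r θ hθ c hc
    refine exists_completion K Ω V B F F₁ T hT N hN X hX h (rk r₀ r) (two θ₀ θ)
      (two_isOpen θ₀ θ hθ₀ hθ) (co c) fun σ hσ => ?_
    rw [Fintype.sum_bool]
    change c * (θ₀ σ).trace + -1 * (θ σ).trace = 0
    rw [hc σ hσ]
    ring
  -- the continuation
  obtain ⟨n₀, k₀, hn₀, hval₀⟩ : ∃ (n : ℕ) (k : ℤ), 0 < n ∧ BKval K Ω (V.twist θ₀ hθ₀) n k := by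
    have : Fact (Nat.Prime 2) := ⟨Nat.prime_two⟩
    obtain ⟨r, θ, hθ, c, m, k, hc0, hm, hc, hval, -⟩ := hap 2 1 one_pos 1 (Or.inl rfl)
    obtain ⟨R⟩ := hcomp θ hθ c hc
    have hc1 : (0 : ℤ) < R.c' true := by
      have h1 := R.hc' true
      have h2 : (0 : ℚ) < (R.n : ℚ) * c := mul_pos (by exact_mod_cast R.hn) hc0
      have h3 : (0 : ℚ) < (R.c' true : ℚ) := by
        rw [← h1]
        exact h2
      exact_mod_cast h3
    obtain ⟨m₁, hm₁⟩ := Int.eq_ofNat_of_zero_le hc1.le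
    have hm₁0 : 0 < m₁ := by
      rw [hm₁] at hc1
      exact_mod_cast hc1
    refine val_twist_gen K Ω V B θ₀ hθ₀ (J := Unit) (fun _ => r) (fun _ => θ) (fun _ => hθ) R.E
      (fun i => -R.a i) (fun _ => -R.c' false) m₁ hm₁0 (fun g => ?_) R.hbk
      (fun _ => ⟨m, k, hm, hval⟩)
    have h1 := R.rel g
    rw [Fintype.sum_bool] at h1
    have h2 : ∑ i, ((-R.a i : ℤ) : ℚ) * (fixCount (R.E i).fixingSubgroup g : ℚ) =
        -∑ i, (R.a i : ℚ) * (fixCount (R.E i).fixingSubgroup g : ℚ) := by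
      rw [← Finset.sum_neg_distrib]
      refine Finset.sum_congr rfl fun i _ => ?_
      push_cast
      ring
    have h8 : ∑ j : Unit, (((fun _ => -R.c' false : Unit → ℤ) j : ℤ) : ℚ) *
        ((fun _ => θ : Unit → (Ω ≃ₐ[K] Ω) →* Matrix (Fin r) (Fin r) ℚ) j g).trace =
        -((R.c' false : ℚ) * (θ g).trace) := by
      rw [Fintype.sum_unique]
      push_cast
      ring
    rw [h2]
    refine (congrArg _ h8).trans ?_
    have h3 : (m₁ : ℚ) = (R.c' true : ℚ) := by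
      rw [hm₁]
      push_cast
      rfl
    rw [h3]
    change _ + ((R.c' true : ℚ) * (θ₀ g).trace + (R.c' false : ℚ) * (θ g).trace) = 0 at h1
    push_cast
    linarith [h1]
  -- the defect is small
  have hsmall : ∀ (p : ℕ) [Fact p.Prime] (ε : ℚ), 0 < ε → ∀ e : ℤ, e = 1 ∨ e = -1 →
      Module.Finite ℚ_[p] (H1f (tensorRep (V.rep p) θ₀) (B p)) ∧
      e * ((k₀ : ℚ) / (n₀ : ℚ) - (((Module.finrank ℚ_[p] (H1f (tensorRep (V.rep p) θ₀) (B p)) : ℤ) -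
        (Pool.BK.h0 (tensorRep (V.rep p) θ₀) : ℤ) : ℤ) : ℚ)) ≤ ε := by
    intro p _ ε hε e he
    obtain ⟨r, θ, hθ, c, m, k, hc0, hm, hc, hval, hle⟩ := hap p ε hε e he
    obtain ⟨R⟩ := hcomp θ hθ c hc
    obtain ⟨h1, h2⟩ := rel_zero K Ω V B (rk r₀ r) (two θ₀ θ) (two_isOpen θ₀ θ hθ₀ hθ) R.E R.a R.c'
      R.rel R.m' R.hm' R.k R.E' R.a' R.hE' R.ha' R.M₀ R.h0 R.h1' R.h2 R.h2' R.hfin R.hbk
      (fun b => match b with
        | true => n₀
        | false => m)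
      (fun b => match b with
        | true => hn₀
        | false => hm)
      (fun b => match b with
        | true => k₀
        | false => k)
      (fun b => match b with
        | true => hval₀
        | false => hval) p
    refine ⟨h1 true, ?_⟩
    have hle' := hle (h1 false)
    rw [Fintype.sum_bool] at h2
    change (R.c' true : ℚ) * ((k₀ : ℚ) / (n₀ : ℚ) - (((Module.finrank ℚ_[p]
      (H1f (tensorRep (V.rep p) θ₀) (B p)) : ℤ) - (Pool.BK.h0 (tensorRep (V.rep p) θ₀) : ℤ) : ℤ) :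
        ℚ)) + (R.c' false : ℚ) * ((k : ℚ) / (m : ℚ) - (((Module.finrank ℚ_[p]
      (H1f (tensorRep (V.rep p) θ) (B p)) : ℤ) - (Pool.BK.h0 (tensorRep (V.rep p) θ) : ℤ) : ℤ) :
        ℚ)) = 0 at h2
    have h3 : (R.n : ℚ) * c = (R.c' true : ℚ) := R.hc' true
    have h4 : (R.n : ℚ) * (-1) = (R.c' false : ℚ) := R.hc' false
    generalize ((Module.finrank ℚ_[p] (H1f (tensorRep (V.rep p) θ) (B p)) : ℤ) -
      (Pool.BK.h0 (tensorRep (V.rep p) θ) : ℤ)) = y at h2 hle'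
    generalize ((Module.finrank ℚ_[p] (H1f (tensorRep (V.rep p) θ₀) (B p)) : ℤ) -
      (Pool.BK.h0 (tensorRep (V.rep p) θ₀) : ℤ)) = x at h2 ⊢
    have hm0 : (0 : ℚ) < (m : ℚ) := by exact_mod_cast hm
    rw [← h3, ← h4] at h2
    have hn : (R.n : ℚ) ≠ 0 := by exact_mod_cast R.hn.ne'
    have h7 := mul_left_cancel₀ hn (a := (R.n : ℚ)) (b := c * ((k₀ : ℚ) / (n₀ : ℚ) - (x : ℚ)))
      (c := (k : ℚ) / (m : ℚ) - (y : ℚ)) (by linear_combination h2)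
    have h8 : (m : ℚ) * c * (e * ((k₀ : ℚ) / (n₀ : ℚ) - (x : ℚ))) = e * (k - m * y) := by
      have h9 : (m : ℚ) * ((k : ℚ) / (m : ℚ)) = k := by
        field_simp
      linear_combination (m : ℚ) * e * h7 + e * h9
    push_cast at hle'
    have hmc : (0 : ℚ) < m * c := mul_pos hm0 hc0
    have h10 : (m : ℚ) * c * (e * ((k₀ : ℚ) / (n₀ : ℚ) - (x : ℚ))) ≤ m * c * ε := by
      rw [h8]
      linarith
    exact le_of_mul_le_mul_left h10 hmc
  obtain ⟨P, hP, σ, U, Λ, hUo, hUσ, hUr, hmer, hprod, hord⟩ := hval₀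
  refine ⟨n₀, hn₀, P, hP, σ, U, Λ, hUo, hUσ, hUr, hmer, hprod, fun p _ => ?_⟩
  obtain ⟨hfin, -⟩ := hsmall p 1 one_pos 1 (Or.inl rfl)
  change Module.Finite ℚ_[p] (H1f (tensorRep (V.rep p) θ₀) (B p)) ∧ meromorphicOrderAt Λ 0 =
    ((((n₀ : ℕ) : ℤ) * ((Module.finrank ℚ_[p] (H1f (tensorRep (V.rep p) θ₀) (B p)) : ℤ) -
      (Pool.BK.h0 (tensorRep (V.rep p) θ₀) : ℤ)) : ℤ) : WithTop ℤ)
  refine ⟨hfin, ?_⟩
  have hz : (k₀ : ℚ) / (n₀ : ℚ) - (((Module.finrank ℚ_[p]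
      (H1f (tensorRep (V.rep p) θ₀) (B p)) : ℤ) -
        (Pool.BK.h0 (tensorRep (V.rep p) θ₀) : ℤ) : ℤ) : ℚ) = 0 := by
    refine eq_zero_of_small _ fun ε hε => ?_
    have h1 := (hsmall p ε hε (-1) (Or.inr rfl)).2
    have h2 := (hsmall p ε hε 1 (Or.inl rfl)).2
    rw [Int.cast_neg, Int.cast_one, neg_one_mul] at h1
    rw [Int.cast_one, one_mul] at h2
    exact abs_le.2 ⟨neg_le.1 h1, h2⟩
  rw [hord]
  congr 1
  have hx : (n₀ : ℚ) ≠ 0 := by exact_mod_cast hn₀.ne'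
  have h1 := sub_eq_zero.1 hz
  rw [div_eq_iff hx] at h1
  have h2 : (k₀ : ℚ) = (((n₀ : ℤ) *
    ((Module.finrank ℚ_[p] (H1f (tensorRep (V.rep p) θ₀) (B p)) : ℤ) -
      (Pool.BK.h0 (tensorRep (V.rep p) θ₀) : ℤ)) : ℤ) : ℚ) := by
    rw [h1]
    push_cast
    ring
  exact_mod_cast h2

end Main

end Pool.BK
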