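import Pool.Agent.BKT.LocalGen
import Pool.Agent.Helper79.BKH.RelZero

/-!
A relation between the characters of twists that holds at the bad elements is completed by
permutation characters of totally complex, locally trivial fields.
-/

open scoped Pointwise NumberField
open Polynomial IsDedekindDomain

namespace Pool.BK

section Main

variable (K : Type) [Field K] [NumberField K] (Ω : Type) [Field Ω] [Algebra K Ω] [IsAlgClosed Ω]
  [Algebra.IsAlgebraic K Ω]

/-- The fields and coefficients that complete a relation. -/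
structure Completion (V : LSystem (Ω ≃ₐ[K] Ω))
    (B : ∀ (p : ℕ) [Fact p.Prime], PeriodData (Ω ≃ₐ[K] Ω) (𝓞 Ω) p)
    {J : Type} [Fintype J] (r' : J → ℕ)
    (θ' : ∀ j, (Ω ≃ₐ[K] Ω) →* Matrix (Fin (r' j)) (Fin (r' j)) ℚ) (c : J → ℚ) where
  κ : Type
  fin : Fintype κ
  E : κ → IntermediateField K Ω
  hE : ∀ i, NumberField (E i)
  a : κ → ℤ
  n : ℕ
  hn : 0 < n
  c' : J → ℤ
  hc' : ∀ j, (n : ℚ) * c j = c' j
  rel : ∀ g : Ω ≃ₐ[K] Ω, ∑ i, (a i : ℚ) * (fixCount (E i).fixingSubgroup g : ℚ) +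
      ∑ j, (c' j : ℚ) * (θ' j g).trace = 0
  m' : J → ℕ
  hm' : ∀ j, 0 < m' j
  k : J → ℕ
  E' : ∀ j, Fin (k j) → IntermediateField K Ω
  a' : ∀ j, Fin (k j) → ℤ
  hE' : ∀ j l, NumberField (E' j l)
  ha' : ∀ (j : J) (g : Ω ≃ₐ[K] Ω),
      ∑ l, (a' j l : ℚ) * (fixCount (E' j l).fixingSubgroup g : ℚ) = m' j * (θ' j g).trace
  M₀ : IntermediateField K Ω
  hM₀ : NumberField M₀
  h0 : M₀.fixingSubgroup.Normal
  h1' : ∀ j, M₀.fixingSubgroup ≤ (θ' j).ker
  h2 : ∀ i, M₀.fixingSubgroup ≤ (E i).fixingSubgroup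
  h2' : ∀ j l, M₀.fixingSubgroup ≤ (E' j l).fixingSubgroup
  hfin : ∀ (p : ℕ) [Fact p.Prime],
      Module.Finite ℚ_[p] (H1f ((V.rep p).comp (resHom K M₀ Ω)) ((B p).res M₀))
  hbk : ∀ i, ∃ n : ℕ, 0 < n ∧ BKInd K (E i) Ω V B n

open ReductionLocal in
theorem exists_completion (V : LSystem (Ω ≃ₐ[K] Ω))
    (B : ∀ (p : ℕ) [Fact p.Prime], PeriodData (Ω ≃ₐ[K] Ω) (𝓞 Ω) p)
    (F : IntermediateField K Ω) [NumberField F] [Normal K F]
    (F₁ : IntermediateField K Ω) [NumberField F₁]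
    (T : Set (HeightOneSpectrum (𝓞 K))) (hT : T.Finite) (N : ℕ) (hN : 0 < N)
    (X : Set (IntermediateField K Ω))
    (hX : ∀ n : ℕ, 0 < n → {L | L ∈ X ∧ Module.finrank K L = n}.Finite)
    (h : ∀ (L : IntermediateField K Ω) [NumberField L], NumberField.IsTotallyComplex L →
      LocTriv F T L → L ∉ X → N ∣ Module.finrank K L →
      (∃ (W : Subgroup (Ω ≃ₐ[K] Ω)) (_ : W.Normal), IsOpen (W : Set (Ω ≃ₐ[K] Ω)) ∧
        W ≤ F₁.fixingSubgroup ∧ W ≤ L.fixingSubgroup ∧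
        IsCyclic (L.fixingSubgroup.map (QuotientGroup.mk' W))) →
      ∃ m : ℕ, 0 < m ∧ BKInd K L Ω V B m)
    {J : Type} [Fintype J] (r' : J → ℕ)
    (θ' : ∀ j, (Ω ≃ₐ[K] Ω) →* Matrix (Fin (r' j)) (Fin (r' j)) ℚ)
    (hθ' : ∀ j, IsOpen ((θ' j).ker : Set (Ω ≃ₐ[K] Ω)))
    (c : J → ℚ)
    (ha : ∀ σ : Ω ≃ₐ[K] Ω, IsConj σ ∨ IsLoc F T σ → ∑ j, c j * (θ' j σ).trace = 0) :
    Nonempty (Completion K Ω V B r' θ' c) := by
  classical
  have hgal := H1Relation.isGalois (K := K) (Ω := Ω)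
  obtain ⟨n, c', hn, hc'⟩ := LocalGen.exists_denom c
  choose m' hm' k E' a' hE' ha' using fun j => exists_permMultiple K Ω (θ' j) (hθ' j)
  have hopenF : ∀ L : IntermediateField K Ω, NumberField L →
      IsOpen (L.fixingSubgroup : Set (Ω ≃ₐ[K] Ω)) := by
    intro L hL
    have : FiniteDimensional K L := H1Relation.finite_of_numberField L
    exact L.fixingSubgroup_isOpen
  let M : ℕ := ∏ j, m' j
  let M' : J → ℕ := fun j => ∏ i ∈ Finset.univ.erase j, m' i
  have hM' : ∀ j, m' j * M' j = M := fun j =>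
    Finset.mul_prod_erase _ _ (Finset.mem_univ j)
  have hM0 : 0 < M := Finset.prod_pos fun j _ => hm' j
  -- all the fields
  let Y : (Σ j, Fin (k j)) → IntermediateField K Ω := fun y => E' y.1 y.2
  have hY : ∀ y, NumberField (Y y) := by
    rintro ⟨j, l⟩
    exact hE' j l
  let co : (Σ j, Fin (k j)) → ℤ := fun y => c' y.1 * (M' y.1 : ℤ) * a' y.1 y.2
  have hco : ∀ g, ((∑ y, co y * (fixCount (Y y).fixingSubgroup g : ℤ) : ℤ) : ℚ) =
      (M : ℚ) * ∑ j, (c' j : ℚ) * (θ' j g).trace := by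
    intro g
    rw [Fintype.sum_sigma]
    simp only [co, Y]
    push_cast
    have e2 : ∀ j, ∑ l, (c' j : ℚ) * (M' j : ℚ) * (a' j l : ℚ) *
        (fixCount (E' j l).fixingSubgroup g : ℚ) =
        (M : ℚ) * ((c' j : ℚ) * (θ' j g).trace) := by
      intro j
      have e3 : ∑ l, (c' j : ℚ) * (M' j : ℚ) * (a' j l : ℚ) *
        (fixCount (E' j l).fixingSubgroup g : ℚ) = (c' j : ℚ) * (M' j : ℚ) *
          ∑ l, (a' j l : ℚ) * (fixCount (E' j l).fixingSubgroup g : ℚ) := by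
        rw [Finset.mul_sum]
        exact Finset.sum_congr rfl fun l _ => by ring
      rw [e3, ha' j g, ← hM' j]
      push_cast
      ring
    rw [Finset.sum_congr rfl fun j _ => e2 j, ← Finset.mul_sum]
  -- a large field
  obtain ⟨U, hU1, hU2, hU3, hU4⟩ := H1Relation.exists_normal Y
  have hUo : IsOpen ((U ⊓ ⨅ j, (θ' j).ker : Subgroup (Ω ≃ₐ[K] Ω)) :
      Set (Ω ≃ₐ[K] Ω)) := by
    rw [Subgroup.coe_inf, Subgroup.coe_iInf]
    exact hU3.inter (isOpen_iInter_of_finite hθ')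
  obtain ⟨hL₀, hL₀fix⟩ := fixedField_of_isOpen (U ⊓ ⨅ j, (θ' j).ker) hUo
  obtain ⟨L₁, hL₁, g1, g2, g3, g4, g5⟩ := exists_large
    (IntermediateField.fixedField (U ⊓ ⨅ j, (θ' j).ker)) F F₁ N hN
  -- Artin's formula
  let X' : Set (Subgroup (Ω ≃ₐ[K] Ω)) := {U | IntermediateField.fixedField U ∈ X}
  have hX' : ∀ n : ℕ, 0 < n →
      {U | U ∈ X' ∧ IsOpen (U : Set (Ω ≃ₐ[K] Ω)) ∧ U.index = n}.Finite := by
    intro n hn
    refine Set.Finite.of_finite_image (f := fun U : Subgroup (Ω ≃ₐ[K] Ω) =>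
      IntermediateField.fixedField U) ((hX n hn).subset ?_) ?_
    · rintro _ ⟨U, ⟨hUX, hUo, hUn⟩, rfl⟩
      exact ⟨hUX, by rw [Almost.finrank_fixedField U hUo, hUn]⟩
    · rintro U ⟨-, hUo, -⟩ U' ⟨-, hUo', -⟩ hUU
      have hUU' : IntermediateField.fixedField U = IntermediateField.fixedField U' := hUU
      rw [← (Reduction.open_field U hUo).2, ← (Reduction.open_field U' hUo').2, hUU']
  obtain ⟨m₂, κ, _, C, b, W, hm₂, hWn, hWo, hWU, hWX, hC, hrel⟩ := artin_avoid K Ω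
    (fun U => ∃ L' : IntermediateField K Ω, NumberField L' ∧
      NumberField.IsTotallyComplex L' ∧ LocTriv F T L' ∧ N ∣ Module.finrank K L' ∧
          U ≤ L'.fixingSubgroup)
    (fun H H' hHH' ⟨L', h1, h2, h3, h4, h5⟩ => ⟨L', h1, h2, h3, h4, hHH'.trans h5⟩)
    (fun y => (Y y).fixingSubgroup) (fun y => hopenF _ (hY y)) co
    (by
      intro g hg
      have hbad : IsConj g ∨ IsLoc F T g := by
        refine BadLocalFine.core (fun σ Q Q' => two_primes σ Q Q') F T hT g fun L₀ _ h0 ⟨h1, h2⟩ => ?_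
        obtain ⟨L', hL', hle, hgL', hN'⟩ := ReductionLocal.exists_big_dvd L₀ g h0 N hN
        exact hg L'.fixingSubgroup (hopenF L' hL') hgL' ⟨L', hL', tc_of_le hle h1,
          locTriv_of_le hle h2, hN', le_rfl⟩
      have h1 := hco g
      have h2 : ∑ j, (c' j : ℚ) * (θ' j g).trace = 0 := by
        have h3 := ha g hbad
        have h4 : ∑ j, (c' j : ℚ) * (θ' j g).trace = (n : ℚ) * ∑ j, c j * (θ' j g).trace := by
          rw [Finset.mul_sum]
          refine Finset.sum_congr rfl fun j _ => ?_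
          rw [← hc' j]
          ring
        rw [h4, h3, mul_zero]
      rw [h2, mul_zero] at h1
      exact_mod_cast h1) X' hX' L₁.fixingSubgroup (hopenF L₁ hL₁)
  -- the field of `W`
  obtain ⟨hM₀, hM₀fix⟩ := fixedField_of_isOpen W hWo
  have hle₁ : L₁ ≤ IntermediateField.fixedField W := (IntermediateField.le_iff_le _ _).2 hWU
  have hWF₁ : W ≤ F₁.fixingSubgroup := hWU.trans (IntermediateField.fixingSubgroup_antitone g3)
  have hbk₀ : ∃ m : ℕ, 0 < m ∧ BKInd K (IntermediateField.fixedField W) Ω V B m := by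
    refine h _ (tc_of_le hle₁ g4) (locTriv_of_le_right T (g2.trans hle₁)) hWX
      (g5.trans (finrank_dvd hle₁)) ⟨W, hWn, hWo, hWF₁, hM₀fix.ge, ?_⟩
    have h1 : (IntermediateField.fixedField W).fixingSubgroup.map (QuotientGroup.mk' W) = ⊥ := by
      rw [Subgroup.map_eq_bot_iff, QuotientGroup.ker_mk', hM₀fix]
    rw [h1]
    infer_instance
  have hWker : W ≤ U ⊓ ⨅ j, (θ' j).ker := by
    rw [← hL₀fix]
    exact hWU.trans (IntermediateField.fixingSubgroup_antitone g1)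
  -- the fields of the `C j`
  have hCo : ∀ j, IsOpen (C j : Set (Ω ≃ₐ[K] Ω)) := fun j => Subgroup.isOpen_mono (hC j).1 hWo
  have hF : ∀ j, NumberField (IntermediateField.fixedField (C j)) := fun j =>
    (fixedField_of_isOpen (C j) (hCo j)).1
  have hFix : ∀ j, (IntermediateField.fixedField (C j)).fixingSubgroup = C j := fun j =>
    (fixedField_of_isOpen (C j) (hCo j)).2
  have hFbk : ∀ j, ∃ m : ℕ, 0 < m ∧ BKInd K (IntermediateField.fixedField (C j)) Ω V B m := by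
    intro j
    obtain ⟨hWC, ⟨L', _, h2, h3, h4, h6⟩, hCX, g, hg⟩ := hC j
    have hle : L' ≤ IntermediateField.fixedField (C j) := (IntermediateField.le_iff_le _ _).2 h6
    refine h _ (tc_of_le hle h2) (locTriv_of_le hle h3) hCX (h4.trans (finrank_dvd hle))
      ⟨W, hWn, hWo, hWF₁, by rw [hFix j]; exact hWC, ?_⟩
    rw [hFix j, hg, Subgroup.map_sup, MonoidHom.map_zpowers]
    have h7 : W.map (QuotientGroup.mk' W) = ⊥ := by
      rw [Subgroup.map_eq_bot_iff, QuotientGroup.ker_mk']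
    rw [h7, sup_bot_eq]
    infer_instance
  have hM₀n : (IntermediateField.fixedField W).fixingSubgroup.Normal := by
    rw [hM₀fix]; exact hWn
  refine ⟨⟨_, inferInstance, fun j => IntermediateField.fixedField (C j), hF, fun j => -b j,
    m₂ * M * n, Nat.mul_pos (Nat.mul_pos hm₂ hM0) hn, fun j => (m₂ : ℤ) * M * c' j, fun j => ?_,
    fun g => ?_, m', hm', k, E', a', hE', ha', IntermediateField.fixedField W, hM₀, hM₀n,
    fun j => by rw [hM₀fix]; exact (hWker.trans inf_le_right).trans (iInf_le _ j),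
    fun j => by rw [hM₀fix, hFix j]; exact (hC j).1,
    fun j l => by
      rw [hM₀fix]
      exact (hWker.trans inf_le_left).trans (hU4 ⟨j, l⟩),
    fun p _ => by
      obtain ⟨m, hm, P, hP, σ₀, U, Λ, hU, hσU, hUt, hΛ, hprod, hord⟩ := hbk₀
      exact (hord p).1, hFbk⟩⟩
  · push_cast
    rw [mul_assoc, hc' j]
  · have h1 := hrel g
    have h2 : ((m₂ : ℤ) * ∑ y, co y * (fixCount (Y y).fixingSubgroup g : ℤ) : ℚ) =
        ∑ j, (b j : ℚ) * (fixCount (C j) g : ℚ) := by exact_mod_cast h1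
    have h3 := hco g
    push_cast at h2 h3
    rw [h3] at h2
    have h4 : ∑ j, ((-b j : ℤ) : ℚ) *
        (fixCount (IntermediateField.fixedField (C j)).fixingSubgroup g : ℚ) =
        -∑ j, (b j : ℚ) * (fixCount (C j) g : ℚ) := by
      rw [← Finset.sum_neg_distrib]
      refine Finset.sum_congr rfl fun j _ => ?_
      rw [hFix j]
      push_cast
      ring
    have h5 : ∑ j, (((m₂ : ℤ) * M * c' j : ℤ) : ℚ) * (θ' j g).trace =
        (m₂ : ℚ) * ((M : ℚ) * ∑ j, (c' j : ℚ) * (θ' j g).trace) := by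
      rw [← mul_assoc, Finset.mul_sum]
      refine Finset.sum_congr rfl fun j _ => ?_
      push_cast
      ring
    rw [h4, ← h2, h5]
    ring

end Main

end Pool.BK
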