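import Pool.Agent.Helper95.BK.Public
import Pool.Agent.BK.Bridge
import Pool.Agent.Helper79.BKH.Defs

/-!
The order of vanishing formula with a one-sided error.
-/

open scoped Pointwise NumberField
open Polynomial IsDedekindDomain

namespace Pool.BK

section Fields

variable (L Ω : Type) [Field L] [NumberField L] [Field Ω] [Algebra L Ω]

/-- The inequality `e · (ord - m (dim H¹_f - dim H⁰)) ≤ t` (`e = 1` or `e = -1`) at the prime `p`
for the `m`-th power of the L-function of `V`: the Euler polynomials are rational and independent of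
`l`, the Euler product converges in a right half plane, its `m`-th power continues meromorphically
to a neighbourhood of the real half line `[0, ∞)`, the order at `0` is an integer `k`, and
`e (k - m d) ≤ t` for `d = dim H¹_f - dim H⁰` (if these dimensions are finite). -/
def ErrorFormula (V : LSystem (Ω ≃ₐ[L] Ω)) {p : ℕ} [Fact p.Prime]
    (B : PeriodData (Ω ≃ₐ[L] Ω) (𝓞 Ω) p) (e : ℤ) (m : ℕ) (t : ℚ) : Prop :=
  ∃ P : HeightOneSpectrum (𝓞 L) → ℚ[X], EulerFamily L Ω V P ∧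
    ∃ (σ : ℝ) (U : Set ℂ) (Λ : ℂ → ℂ), IsOpen U ∧ {s : ℂ | σ < s.re} ⊆ U ∧
      (∀ t : ℝ, 0 ≤ t → (t : ℂ) ∈ U) ∧ MeromorphicOn Λ U ∧
      (∀ s : ℂ, σ < s.re → ∃ z : ℂ, z ≠ 0 ∧ HasProd (eulerFactor L P s) z ∧ Λ s = z ^ m) ∧
      ∃ k : ℤ, meromorphicOrderAt Λ 0 = (k : WithTop ℤ) ∧
        ∀ d : ℤ, SelmerDiff (V.rep p) B d → ((e * (k - m * d) : ℤ) : ℚ) ≤ t

theorem errorFormula_val [IsAlgClosed Ω] [Algebra.IsAlgebraic L Ω] (V : LSystem (Ω ≃ₐ[L] Ω))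
    {p : ℕ} [Fact p.Prime] (B : PeriodData (Ω ≃ₐ[L] Ω) (𝓞 Ω) p) (e : ℤ) (m : ℕ) (t : ℚ)
    (h : ErrorFormula L Ω V B e m t) : ∃ k : ℤ, BKval L Ω V m k ∧
      (Module.Finite ℚ_[p] (H1f (V.rep p) B) →
        ((e * (k - m * ((Module.finrank ℚ_[p] (H1f (V.rep p) B) : ℤ) - (h0 (V.rep p) : ℤ))) : ℤ) :
          ℚ) ≤ t) := by
  obtain ⟨P, hP, σ, U, Λ, hUo, hUσ, hUr, hmer, hprod, k, hk, hd⟩ := h
  exact ⟨k, ⟨P, (eulerFamily_iff L Ω V P).1 hP, σ, U, Λ, hUo, hUσ, hUr, hmer, hprod, hk⟩,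
    fun hfin => hd _ ((Bridge.selmerDiff_iff _ _ _).2 ⟨hfin, rfl⟩)⟩

end Fields

end Pool.BK
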